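import Pool.Agent.KS6_81.RPS.State

/-!
# Families of states closed under two-part splits; traceable states
-/

set_option autoImplicit false

namespace Pool.Agent.KS6_81.RPS

theorem parts_of_closed {ι : Type} [Fintype ι] (S : Set (Option ι → ℕ))
    (hS : ∀ w ∈ S, ∀ L, 1 ≤ L → L < ∑ i, w i → ∃ w1 ∈ S, ∃ w2 ∈ S, (∀ i, w1 i + w2 i = w i) ∧
      ∑ i, w1 i = L) : ∀ (k : ℕ) (a : Fin (k + 1) → ℕ) (w : Option ι → ℕ), w ∈ S →
      (∀ i, 0 < a i) → ∑ i, a i = ∑ i, w i → ∃ W : Fin (k + 1) → Option ι → ℕ, (∀ j, W j ∈ S) ∧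
        (∀ i, ∑ j, W j i = w i) ∧ ∀ j, ∑ i, W j i = a j := by
  intro k
  induction k with
  | zero =>
    intro a w hw ha hs
    refine ⟨fun _ => w, fun _ => hw, fun i => by simp, fun j => ?_⟩
    have hj : j = 0 := Fin.ext (by have := j.2; simp only [Fin.val_zero]; omega)
    rw [← hs, hj]
    simp
  | succ k ih =>
    intro a w hw ha hs
    rw [Fin.sum_univ_succ] at hs
    have hpos : 0 < ∑ i : Fin (k + 1), a i.succ :=
      Finset.sum_pos (fun i _ => ha _) Finset.univ_nonempty
    obtain ⟨w1, h1, w2, h2, h12, hL⟩ := hS w hw (a 0) (ha 0) (by omega)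
    have hsum : ∑ i, w1 i + ∑ i, w2 i = ∑ i, w i := by
      rw [← Finset.sum_add_distrib]
      exact Finset.sum_congr rfl fun i _ => h12 i
    obtain ⟨W, hWS, hW, hWa⟩ := ih (fun i => a i.succ) w2 h2 (fun i => ha _) (by omega)
    refine ⟨Fin.cons w1 W, fun j => ?_, fun i => ?_, fun j => ?_⟩
    · refine Fin.cases ?_ (fun j => ?_) j
      · exact h1
      · exact hWS j
    · rw [Fin.sum_univ_succ]
      simp only [Fin.cons_zero, Fin.cons_succ]
      rw [hW i, h12 i]
    · refine Fin.cases ?_ (fun j => ?_) j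
      · simpa using hL
      · simpa using hWa j

theorem RS_of_closed' {ι : Type} [Fintype ι] (S : Set (Option ι → ℕ)) (hc : ∀ w ∈ S, conn w)
    (hS : ∀ w ∈ S, ∀ L, 1 ≤ L → L < ∑ i, w i → ∃ w1 ∈ S, ∃ w2 ∈ S, (∀ i, w1 i + w2 i = w i) ∧
      ∑ i, w1 i = L) : ∀ (n : ℕ) (w : Option ι → ℕ), w ∈ S → ∑ i, w i = n → RS w := by
  intro n
  induction n using Nat.strong_induction_on with
  | _ n ih =>
    intro w hw hn
    refine RS_intro w (hc w hw) fun k a hk ha hs => ?_
    obtain ⟨k, rfl⟩ : ∃ k', k = k' + 1 := ⟨k - 1, by omega⟩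
    obtain ⟨W, hWS, hW, hWa⟩ := parts_of_closed S hS k a w hw ha hs
    refine ⟨W, hW, hWa, fun j => ih _ ?_ (W j) (hWS j) rfl⟩
    rw [hWa j, ← hn, ← hs]
    obtain ⟨l, hl⟩ : ∃ l : Fin (k + 1), l ≠ j := by
      have : Nontrivial (Fin (k + 1)) := Fin.nontrivial_iff_two_le.2 hk
      exact exists_ne j
    exact Finset.single_lt_sum hl (Finset.mem_univ j) (Finset.mem_univ l) (ha l)
      (fun l _ _ => (ha l).le)

/-- a family of states closed under two-part splits consists of recursively partitionable
states -/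
theorem RS_of_closed {k : ℕ} (S : ℕ → (Fin k → ℕ) → Prop)
    (hc : ∀ s c, S s c → s ≠ 0 ∨ ∃ i, c i ≠ 0 ∧ ∀ j, j ≠ i → c j = 0)
    (hS : ∀ s c, S s c → ∀ L, 1 ≤ L → L < s + ∑ i, c i → ∃ s1 s2 c1 c2, S s1 c1 ∧ S s2 c2 ∧
      s1 + s2 = s ∧ (∀ i, c1 i + c2 i = c i) ∧ s1 + ∑ i, c1 i = L)
    (s : ℕ) (c : Fin k → ℕ) (h : S s c) : RS (fun i : Option (Fin k) => i.elim s c) := by
  refine RS_of_closed' {w : Option (Fin k) → ℕ | S (w none) (fun i => w (some i))} ?_ ?_ _ _ ?_ rfl
  · intro w hw
    rcases hc _ _ hw with h | ⟨i, hi, h⟩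
    · exact Or.inl h
    · by_cases h0 : w none = 0
      · refine Or.inr ⟨some i, hi, fun j hj => ?_⟩
        rcases j with _ | j
        · exact h0
        · exact h j (fun e => hj (by rw [e]))
      · exact Or.inl h0
  · intro w hw L hL hLn
    rw [Fintype.sum_option] at hLn
    obtain ⟨s1, s2, c1, c2, h1, h2, hs, hcc, hsum⟩ := hS _ _ hw L hL hLn
    refine ⟨fun i => i.elim s1 c1, h1, fun i => i.elim s2 c2, h2, fun i => ?_, ?_⟩
    · rcases i with _ | i
      · exact hs
      · exact hcc i
    · rw [Fintype.sum_option]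
      exact hsum
  · exact h

/-- number of nonempty cliques -/
def nzc {k : ℕ} (c : Fin k → ℕ) : ℕ := (Finset.univ.filter (fun i => c i ≠ 0)).card

/-- traceable states -/
def Tr {k : ℕ} (s : ℕ) (c : Fin k → ℕ) : Prop := 1 ≤ s + ∑ i, c i ∧ nzc c ≤ s + 1

theorem Tr_conn {k : ℕ} (s : ℕ) (c : Fin k → ℕ) (h : Tr s c) :
    s ≠ 0 ∨ ∃ i, c i ≠ 0 ∧ ∀ j, j ≠ i → c j = 0 := by
  by_cases hs : s = 0
  · right
    subst hs
    obtain ⟨h1, h2⟩ := h
    have : ∃ i, c i ≠ 0 := by
      by_contra hcon
      push Not at hcon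
      simp [hcon] at h1
    obtain ⟨i, hi⟩ := this
    refine ⟨i, hi, fun j hj => ?_⟩
    by_contra hcj
    have := Finset.card_le_one.1 (by simpa [nzc] using h2) i (by simp [hi]) j (by simp [hcj])
    exact hj this.symm
  · exact Or.inl hs

theorem nzc_mono {k : ℕ} (c d : Fin k → ℕ) (h : ∀ i, c i ≤ d i) : nzc c ≤ nzc d := by
  refine Finset.card_le_card fun i => ?_
  simp only [Finset.mem_filter, Finset.mem_univ, true_and]
  have := h i
  omega

theorem nzc_single {k : ℕ} (i : Fin k) (x : ℕ) : nzc (Pi.single i x : Fin k → ℕ) ≤ 1 := by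
  refine Finset.card_le_one.2 fun a ha b hb => ?_
  simp only [Finset.mem_filter, Finset.mem_univ, true_and] at ha hb
  have h1 : a = i := by
    by_contra h
    exact ha (by rw [Pi.single_eq_of_ne h])
  have h2 : b = i := by
    by_contra h
    exact hb (by rw [Pi.single_eq_of_ne h])
  rw [h1, h2]

theorem nzc_add {k : ℕ} (c d : Fin k → ℕ) : nzc (fun i => c i + d i) ≤ nzc c + nzc d := by
  refine le_trans (Finset.card_le_card (t := Finset.univ.filter (fun i => c i ≠ 0) ∪
    Finset.univ.filter (fun i => d i ≠ 0)) fun i => ?_) (Finset.card_union_le _ _)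
  simp only [Finset.mem_filter, Finset.mem_univ, true_and, Finset.mem_union]
  omega

theorem Tr_split {k : ℕ} : ∀ (n s : ℕ) (c : Fin k → ℕ), s + ∑ i, c i = n → Tr s c → ∀ L, 1 ≤ L →
    L < s + ∑ i, c i → ∃ s1 s2 c1 c2, Tr s1 c1 ∧ Tr s2 c2 ∧
      s1 + s2 = s ∧ (∀ i, c1 i + c2 i = c i) ∧ s1 + ∑ i, c1 i = L := by
  intro n
  induction n using Nat.strong_induction_on with
  | _ n ih =>
    intro s c hn ⟨h1, h2⟩ L hL hLn
    by_cases hA : ∃ i, L ≤ c i
    · obtain ⟨i, hi⟩ := hA
      have hle : ∀ j, (Pi.single i L : Fin k → ℕ) j ≤ c j := by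
        intro j
        by_cases hj : j = i
        · subst hj; simpa using hi
        · rw [Pi.single_eq_of_ne hj]; exact Nat.zero_le _
      have hadd : ∀ j, (Pi.single i L : Fin k → ℕ) j + (c j - (Pi.single i L : Fin k → ℕ) j) = c j :=
        fun j => by have := hle j; omega
      have hs1 : ∑ j, (Pi.single i L : Fin k → ℕ) j = L := by
        rw [Finset.sum_pi_single']; simp
      have hs2 : ∑ j, (Pi.single i L : Fin k → ℕ) j +
          ∑ j, (c j - (Pi.single i L : Fin k → ℕ) j) = ∑ j, c j := by
        rw [← Finset.sum_add_distrib]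
        exact Finset.sum_congr rfl fun j _ => hadd j
      refine ⟨0, s, Pi.single i L, fun j => c j - (Pi.single i L : Fin k → ℕ) j, ⟨?_, ?_⟩,
        ⟨?_, ?_⟩, by omega, hadd, ?_⟩
      · rw [hs1]; omega
      · exact (nzc_single i L)
      · beta_reduce
        omega
      · exact le_trans (nzc_mono _ _ (fun j => Nat.sub_le _ _)) h2
      · rw [hs1]; omega
    · push Not at hA
      by_cases hB : ∃ i, c i ≠ 0
      · obtain ⟨i, hi⟩ := hB
        have hs : s ≠ 0 := by
          rintro rfl
          have hone := Finset.card_le_one.1 (by simpa [nzc] using h2)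
          have : ∑ j, c j = c i := by
            refine Finset.sum_eq_single i (fun j _ hj => ?_) (by simp)
            by_contra hcj
            exact hj (hone j (by simp [hcj]) i (by simp [hi]))
          have := hA i
          omega
        -- remove the clique `i` and one centre
        have hupd : ∀ j, Function.update c i 0 j + (Pi.single i (c i) : Fin k → ℕ) j = c j := by
          intro j
          by_cases hj : j = i
          · subst hj; simp
          · simp [Function.update_of_ne hj, Pi.single_eq_of_ne hj]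
        have hs1 : ∑ j, (Pi.single i (c i) : Fin k → ℕ) j = c i := by
          rw [Finset.sum_pi_single']; simp
        have hsum : ∑ j, Function.update c i 0 j + c i = ∑ j, c j := by
          rw [← hs1, ← Finset.sum_add_distrib]
          exact Finset.sum_congr rfl fun j _ => hupd j
        have hnz : nzc (Function.update c i 0) + 1 ≤ nzc c := by
          refine Finset.card_lt_card ⟨fun j => ?_, fun hsub => ?_⟩
          · simp only [Finset.mem_filter, Finset.mem_univ, true_and]
            intro hj hcj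
            have := hupd j
            omega
          · have := hsub (show i ∈ Finset.univ.filter (fun j => c j ≠ 0) by simp [hi])
            simp at this
        have hci := hA i
        by_cases hL' : L = c i + 1
        · refine ⟨1, s - 1, Pi.single i (c i), Function.update c i 0, ⟨?_, ?_⟩, ⟨?_, ?_⟩, by omega,
            fun j => ?_, ?_⟩
          · omega
          · exact (nzc_single _ _).trans (by omega)
          · omega
          · omega
          · rw [add_comm]; exact hupd j
          · rw [hs1]; omega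
        · obtain ⟨s1, s2, c1, c2, ht1, ht2, hss, hcc, hsum'⟩ := ih (n - (c i + 1)) (by omega) (s - 1)
            (Function.update c i 0) (by omega) ⟨by omega, by omega⟩ (L - (c i + 1)) (by omega)
            (by omega)
          refine ⟨s1 + 1, s2, fun j => c1 j + (Pi.single i (c i) : Fin k → ℕ) j, c2, ⟨?_, ?_⟩, ht2,
            by omega, fun j => ?_, ?_⟩
          · omega
          · have := nzc_add c1 (Pi.single i (c i))
            have := nzc_single i (c i)
            have := ht1.2
            omega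
          · have := hupd j
            have := hcc j
            beta_reduce
            omega
          · rw [Finset.sum_add_distrib, hs1]
            omega
      · push Not at hB
        have hz : ∑ i, c i = 0 := Finset.sum_eq_zero fun i _ => hB i
        have hnz : nzc c = 0 := by simp [nzc, hB]
        refine ⟨L, s - L, c, c, ⟨by omega, by omega⟩, ⟨by omega, by omega⟩, by omega, fun i => ?_,
          by omega⟩
        rw [hB i]

end Pool.Agent.KS6_81.RPS
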