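import Mathlib

/-!
# Recursively partitionable graphs and semistars: definitions, invariance under isomorphism
-/

set_option autoImplicit false

namespace Pool.Agent.KS6_81.RPS

/-- `G` is recursively partitionable: it has one vertex, or it is connected and for all positive
`a 0, …, a (k-1)`, `k ≥ 2`, with sum the number of vertices the vertex set can be partitioned into
`k` classes of sizes `a i` each of which induces a recursively partitionable graph -/
def RP (V : Type) (G : SimpleGraph V) : Prop :=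
  Nat.card V = 1 ∨ (G.Connected ∧ ∀ (k : ℕ) (a : Fin k → ℕ) (_hk : 2 ≤ k) (_ha : ∀ i, 0 < a i)
    (_hs : ∑ i, a i = Nat.card V), ∃ f : V → Fin k, ∃ _hf : ∀ i, Nat.card (f ⁻¹' {i}) = a i,
      ∀ i, RP (f ⁻¹' {i}) (G.induce (f ⁻¹' {i})))
termination_by Nat.card V
decreasing_by
  rw [_hf i, ← _hs]
  obtain ⟨j, hj⟩ : ∃ j : Fin k, j ≠ i := by
    have : Nontrivial (Fin k) := Fin.nontrivial_iff_two_le.2 _hk
    exact exists_ne i
  exact Finset.single_lt_sum hj (Finset.mem_univ i) (Finset.mem_univ j) (_ha j)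
    (fun l _ _ => (_ha l).le)

/-- the semistar `K_{b0} (b_0, …, b_{k-1})`: vertices `(i, x)` with `x < b_i`, where `i = none`
is the central clique; two vertices are adjacent if they lie in the same clique or one of them lies
in the central clique -/
def semistar (b0 : ℕ) {k : ℕ} (b : Fin k → ℕ) :
    SimpleGraph (Σ i : Option (Fin k), Fin (i.elim b0 b)) where
  Adj u v := u ≠ v ∧ (u.1 = v.1 ∨ u.1 = none ∨ v.1 = none)
  symm := ⟨fun u v h => ⟨h.1.symm, by
    rcases h.2 with h | h | h
    · exact Or.inl h.symm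
    · exact Or.inr (Or.inr h)
    · exact Or.inr (Or.inl h)⟩⟩
  loopless := ⟨fun u h => h.1 rfl⟩

/-- invariance under isomorphism -/
theorem RP_iso : ∀ (n : ℕ) (V W : Type) (G : SimpleGraph V) (H : SimpleGraph W), Nat.card V = n →
    Nonempty (G ≃g H) → RP V G → RP W H := by
  intro n
  induction n using Nat.strong_induction_on with
  | _ n ih =>
    intro V W G H hn ⟨e⟩ h
    have hcard : Nat.card V = Nat.card W := Nat.card_congr e.toEquiv
    rw [RP] at h ⊢
    rcases h with h | ⟨hc, h⟩
    · exact Or.inl (hcard ▸ h)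
    refine Or.inr ⟨e.connected_iff.1 hc, fun k a hk ha hs => ?_⟩
    obtain ⟨f, hf, hR⟩ := h k a hk ha (by rw [hs, hcard])
    have eqv : ∀ i, (f ⁻¹' {i}) ≃ ((f ∘ e.symm) ⁻¹' {i}) := fun i =>
      e.toEquiv.subtypeEquiv (fun x => by simp [Set.mem_preimage])
    have iso : ∀ i, Nonempty (G.induce (f ⁻¹' {i}) ≃g H.induce ((f ∘ e.symm) ⁻¹' {i})) := fun i =>
      ⟨⟨e.toEquiv.subtypeEquiv (fun x => by simp [Set.mem_preimage]), by
        intro x y
        exact e.map_rel_iff⟩⟩
    refine ⟨f ∘ e.symm, fun i => ?_, fun i => ?_⟩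
    · rw [← hf i]
      exact (Nat.card_congr (eqv i)).symm
    · refine ih _ ?_ _ _ _ _ rfl (iso i) (hR i)
      rw [hf i, ← hn, hcard, ← hs]
      obtain ⟨j, hj⟩ : ∃ j : Fin k, j ≠ i := by
        have : Nontrivial (Fin k) := Fin.nontrivial_iff_two_le.2 hk
        exact exists_ne i
      exact Finset.single_lt_sum hj (Finset.mem_univ i) (Finset.mem_univ j) (ha j)
        (fun l _ _ => (ha l).le)

end Pool.Agent.KS6_81.RPS
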