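import Pool.Agent.KS6_81.RPS.State
import Pool.Agent.KS6_81.RPS.Search

/-!
# Necessary conditions for states, in terms of the multiset of clique sizes
-/

set_option autoImplicit false

namespace Pool.Agent.KS6_81.RPS

open Multiset

/-- remove the zeros -/
def fz (m : Multiset ℕ) : Multiset ℕ := m.filter (fun x => x ≠ 0)

theorem fz_cons (a : ℕ) (m : Multiset ℕ) : fz (a ::ₘ m) = if a = 0 then fz m else a ::ₘ fz m := by
  unfold fz
  by_cases h : a = 0
  · simp [h]
  · simp [h]

theorem sum_fz (m : Multiset ℕ) : (fz m).sum = m.sum := by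
  induction m using Multiset.induction with
  | empty => rfl
  | cons a m ih =>
    rw [fz_cons]
    by_cases h : a = 0
    · subst h
      simpa using ih
    · rw [if_neg h, Multiset.sum_cons, Multiset.sum_cons, ih]

/-- the state with `s` centres and multiset `m` of nonzero clique sizes is recursively
partitionable -/
def N (s : ℕ) (m : Multiset ℕ) : Prop :=
  ∃ c : Fin 8 → ℕ, RS (fun i : Option (Fin 8) => i.elim s c) ∧
    fz ((Finset.univ : Finset (Fin 8)).val.map c) = m

theorem N_pos (s : ℕ) (m : Multiset ℕ) (h : N s m) : ∀ x ∈ m, 1 ≤ x := by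
  obtain ⟨c, _, rfl⟩ := h
  intro x hx
  have := (Multiset.mem_filter.1 hx).2
  omega

theorem N_split (s : ℕ) (m : Multiset ℕ) (h : N s m) (L : ℕ) (hL : 1 ≤ L) (hLn : L < s + m.sum) :
    ∃ (s1 s2 : ℕ) (M : Multiset (ℕ × ℕ)), s1 + s2 = s ∧ fz (M.map (fun p => p.1 + p.2)) = m ∧
      N s1 (fz (M.map Prod.fst)) ∧ N s2 (fz (M.map Prod.snd)) ∧ s1 + (fz (M.map Prod.fst)).sum = L := by
  obtain ⟨c, hc, rfl⟩ := h
  rw [sum_fz] at hLn
  obtain ⟨w1, w2, h12, hsum, h1, h2⟩ := RS_split _ hc L hL (by
    rw [Fintype.sum_option]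
    exact hLn)
  have e1 : (fun i : Option (Fin 8) => i.elim (w1 none) (fun i => w1 (some i))) = w1 := by
    funext i
    rcases i with _ | i <;> rfl
  have e2 : (fun i : Option (Fin 8) => i.elim (w2 none) (fun i => w2 (some i))) = w2 := by
    funext i
    rcases i with _ | i <;> rfl
  refine ⟨w1 none, w2 none, (Finset.univ : Finset (Fin 8)).val.map (fun i => (w1 (some i), w2 (some i))),
    h12 none, ?_, ⟨fun i => w1 (some i), by rw [e1]; exact h1, ?_⟩,
    ⟨fun i => w2 (some i), by rw [e2]; exact h2, ?_⟩, ?_⟩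
  · rw [Multiset.map_map]
    congr 1
    refine Multiset.map_congr rfl fun i _ => ?_
    exact h12 (some i)
  · rw [Multiset.map_map]; rfl
  · rw [Multiset.map_map]; rfl
  · rw [sum_fz, Multiset.map_map]
    rw [Fintype.sum_option] at hsum
    exact hsum

theorem N_zero (m : Multiset ℕ) (h : N 0 m) : Multiset.card m ≤ 1 := by
  obtain ⟨c, hc, rfl⟩ := h
  have key := fun i j hi hj => RS_conn _ hc rfl (some i) (some j) hi hj
  have h1 : ((Finset.univ : Finset (Fin 8)).filter (fun i => c i ≠ 0)).card ≤ 1 := by
    refine Finset.card_le_one.2 fun i hi j hj => ?_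
    simp only [Finset.mem_filter, Finset.mem_univ, true_and] at hi hj
    exact Option.some_injective _ (key i j hi hj)
  unfold fz
  rw [Multiset.filter_map, Multiset.card_map]
  exact h1

/-! ### splits of multisets -/

theorem split_card (M : Multiset (ℕ × ℕ)) :
    card (fz (M.map (fun p => p.1 + p.2))) ≤ card (fz (M.map Prod.fst)) + card (fz (M.map Prod.snd)) ∧
    (card (fz (M.map (fun p => p.1 + p.2))) = card (fz (M.map Prod.fst)) + card (fz (M.map Prod.snd)) →
      fz (M.map (fun p => p.1 + p.2)) = fz (M.map Prod.fst) + fz (M.map Prod.snd)) := by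
  induction M using Multiset.induction with
  | empty => simp [fz]
  | cons a M ih =>
    obtain ⟨x, y⟩ := a
    simp only [Multiset.map_cons, fz_cons]
    obtain ⟨h1, h2⟩ := ih
    by_cases hx : x = 0
    · by_cases hy : y = 0
      · subst hx hy
        simpa using ⟨h1, h2⟩
      · subst hx
        simp only [zero_add, hy, if_false, if_true, Multiset.card_cons]
        refine ⟨by omega, fun h => ?_⟩
        rw [h2 (by omega)]
        simp [Multiset.add_cons]
    · by_cases hy : y = 0
      · subst hy
        simp only [add_zero, hx, if_false, if_true, Multiset.card_cons]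
        refine ⟨by omega, fun h => ?_⟩
        rw [h2 (by omega)]
        simp [Multiset.cons_add]
      · have hxy : x + y ≠ 0 := by omega
        simp only [hx, hy, hxy, if_false, Multiset.card_cons]
        refine ⟨by omega, fun h => ?_⟩
        omega

theorem split_empty (M : Multiset (ℕ × ℕ)) (h : fz (M.map Prod.fst) = 0) :
    fz (M.map Prod.snd) = fz (M.map (fun p => p.1 + p.2)) := by
  induction M using Multiset.induction with
  | empty => rfl
  | cons a M ih =>
    obtain ⟨x, y⟩ := a
    simp only [Multiset.map_cons, fz_cons] at h ⊢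
    by_cases hx : x = 0
    · subst hx
      simp only [if_true] at h
      simp only [zero_add]
      rw [ih h]
    · simp [hx] at h

theorem split_single (M : Multiset (ℕ × ℕ)) (h : card (fz (M.map Prod.fst)) ≤ 1)
    (hs : 1 ≤ (fz (M.map Prod.fst)).sum) : ∃ a ∈ fz (M.map (fun p => p.1 + p.2)),
      (fz (M.map Prod.fst)).sum ≤ a ∧ fz (M.map Prod.snd) =
        if (fz (M.map Prod.fst)).sum = a then (fz (M.map (fun p => p.1 + p.2))).erase a
        else (a - (fz (M.map Prod.fst)).sum) ::ₘ (fz (M.map (fun p => p.1 + p.2))).erase a := by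
  induction M using Multiset.induction with
  | empty => simp [fz] at hs
  | cons a M ih =>
    obtain ⟨x, y⟩ := a
    simp only [Multiset.map_cons, fz_cons] at h hs ⊢
    by_cases hx : x = 0
    · subst hx
      simp only [if_true] at h hs
      obtain ⟨a, ha, h1, h2⟩ := ih h hs
      by_cases hy : y = 0
      · subst hy
        simp only [add_zero, if_true]
        exact ⟨a, ha, h1, h2⟩
      · simp only [zero_add, hy, if_false, if_true]
        refine ⟨a, Multiset.mem_cons_of_mem ha, h1, ?_⟩
        rw [Multiset.erase_cons_tail_of_mem ha, h2]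
        split_ifs with he
        · rfl
        · exact Multiset.cons_swap _ _ _
    · simp only [hx, if_false, Multiset.card_cons] at h hs ⊢
      have h0 : fz (M.map Prod.fst) = 0 := by
        rw [← Multiset.card_eq_zero]
        omega
      have hxy : x + y ≠ 0 := by omega
      simp only [hxy, if_false]
      rw [h0, split_empty M h0]
      refine ⟨x + y, Multiset.mem_cons_self _ _, by simp, ?_⟩
      rw [Multiset.erase_cons_head]
      by_cases hy : y = 0
      · subst hy
        simp
      · simp [hy]

/-- a part with `L` vertices without centre can be cut off -/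
def Bs (s : ℕ) (m : Multiset ℕ) (L : ℕ) : Prop :=
  ∃ a ∈ m, (a = L ∧ N s (m.erase a)) ∨ (L < a ∧ N s ((a - L) ::ₘ m.erase a))

/-- splits of a state -/
theorem N_cases (s : ℕ) (m : Multiset ℕ) (h : N s m) (L : ℕ) (hL : 1 ≤ L) (hLn : L < s + m.sum) :
    Bs s m L ∨ Bs s m (s + m.sum - L) ∨ ∃ (s1 s2 : ℕ) (M : Multiset (ℕ × ℕ)), 1 ≤ s1 ∧ 1 ≤ s2 ∧
      s1 + s2 = s ∧ fz (M.map (fun p => p.1 + p.2)) = m ∧ N s1 (fz (M.map Prod.fst)) ∧
      N s2 (fz (M.map Prod.snd)) ∧ s1 + (fz (M.map Prod.fst)).sum = L ∧
      s2 + (fz (M.map Prod.snd)).sum = s + m.sum - L := by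
  obtain ⟨s1, s2, M, hs, hM, h1, h2, hsum⟩ := N_split s m h L hL hLn
  have htot : (fz (M.map Prod.fst)).sum + (fz (M.map Prod.snd)).sum = m.sum := by
    rw [← hM, sum_fz, sum_fz, sum_fz, ← Multiset.sum_map_add]
  rcases Nat.eq_zero_or_pos s1 with h0 | hs1
  · left
    subst h0
    obtain ⟨a, ha, hle, he⟩ := split_single M (N_zero _ h1) (by omega)
    rw [hM] at ha he
    refine ⟨a, ha, ?_⟩
    by_cases hh : (fz (M.map Prod.fst)).sum = a
    · left
      rw [if_pos hh] at he
      rw [he] at h2
      exact ⟨by omega, by rw [show s = s2 by omega]; exact h2⟩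
    · right
      rw [if_neg hh] at he
      refine ⟨by omega, ?_⟩
      rw [he] at h2
      rw [show L = (fz (M.map Prod.fst)).sum by omega, show s = s2 by omega]
      exact h2
  · rcases Nat.eq_zero_or_pos s2 with h0 | hs2
    · right; left
      subst h0
      have hsw := split_single (M.map Prod.swap)
      have e1 : (M.map Prod.swap).map Prod.fst = M.map Prod.snd := by
        rw [Multiset.map_map]; rfl
      have e2 : (M.map Prod.swap).map Prod.snd = M.map Prod.fst := by
        rw [Multiset.map_map]; rfl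
      have e3 : (M.map Prod.swap).map (fun p => p.1 + p.2) = M.map (fun p => p.1 + p.2) := by
        rw [Multiset.map_map]
        refine Multiset.map_congr rfl fun p _ => ?_
        simp [add_comm]
      rw [e1, e2, e3, hM] at hsw
      obtain ⟨a, ha, hle, he⟩ := hsw (N_zero _ h2) (by omega)
      refine ⟨a, ha, ?_⟩
      by_cases hh : (fz (M.map Prod.snd)).sum = a
      · left
        rw [if_pos hh] at he
        rw [he] at h1
        exact ⟨by omega, by rw [show s = s1 by omega]; exact h1⟩
      · right
        rw [if_neg hh] at he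
        refine ⟨by omega, ?_⟩
        rw [he] at h1
        rw [show s + m.sum - L = (fz (M.map Prod.snd)).sum by omega, show s = s1 by omega]
        exact h1
    · right; right
      exact ⟨s1, s2, M, hs1, hs2, hs, hM, h1, h2, hsum, by omega⟩

/-! ### from multisets to lists -/

theorem sort_red (m : Multiset ℕ) (a L : ℕ) :
    ((a - L) ::ₘ m.erase a).sort (· ≤ ·) = red (m.sort (· ≤ ·)) a L := by
  have hp : List.Perm (((a - L) ::ₘ m.erase a).sort (· ≤ ·)) (red (m.sort (· ≤ ·)) a L) := by
    rw [← Multiset.coe_eq_coe]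
    unfold red
    rw [Multiset.sort_eq]
    have h1 : (((m.sort (· ≤ ·)).erase a).orderedInsert (· ≤ ·) (a - L) : Multiset ℕ) =
        ((a - L) :: (m.sort (· ≤ ·)).erase a : List ℕ) := by
      rw [Multiset.coe_eq_coe]
      exact List.perm_orderedInsert _ _ _
    rw [h1, ← Multiset.cons_coe, ← Multiset.coe_erase, Multiset.sort_eq]
  refine hp.eq_of_pairwise' (Multiset.pairwise_sort _ _) ?_
  unfold red
  exact (((Multiset.pairwise_sort m (· ≤ ·)).sublist List.erase_sublist)).orderedInsert _ _

theorem sublist_of_le (m m1 : Multiset ℕ) (h : m1 ≤ m) :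
    (m1.sort (· ≤ ·)).Sublist (m.sort (· ≤ ·)) := by
  have h1 : (m1.sort (· ≤ ·) : Multiset ℕ) ≤ (m.sort (· ≤ ·) : Multiset ℕ) := by
    rw [Multiset.sort_eq, Multiset.sort_eq]; exact h
  rw [Multiset.coe_le] at h1
  exact List.sublist_of_subperm_of_pairwise h1 (Multiset.pairwise_sort _ _)
    (Multiset.pairwise_sort _ _)

end Pool.Agent.KS6_81.RPS
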