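import Pool.Agent.KS6_81.RPS.Levels

/-!
# Exact list for three centres and eight cliques

A necessary condition for states with two centres and five cliques, and the exclusion of all but
two of the candidates in `F3`.
-/

set_option autoImplicit false

namespace Pool.Agent.KS6_81.RPS

open Multiset

/-- five cliques, one of them cut, form two admissible triples; the first part has order `A` -/
def cutb (l : List ℕ) (A : ℕ) : Bool :=
  l.any fun x => (subs 2 (l.erase x)).any fun p =>
    decide (1 + p.sum < A) && decide (A < 1 + p.sum + x) &&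
      T3 (p.orderedInsert (· ≤ ·) (A - 1 - p.sum)) &&
      T3 (((l.erase x).diff p).orderedInsert (· ≤ ·) (x - (A - 1 - p.sum)))

/-- an admissible triple of order `A` -/
def tr3 (l : List ℕ) (A : ℕ) : Bool := (subs 3 l).any fun t => T3 t && decide (1 + t.sum = A)

/-- necessary condition for two centres and five cliques -/
def hh : ℕ → List ℕ → Bool
  | 0, _ => true
  | f + 1, l => (List.range (2 + l.sum)).all fun L => decide (L = 0) || decide (L ∈ l) ||
      decide (2 + l.sum - L ∈ l) || tr3 l L || tr3 l (2 + l.sum - L) || cutb l L ||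
      l.any (fun a => decide (L < a) && hh f (red l a L)) ||
      l.any (fun a => decide (2 + l.sum - L < a) && hh f (red l a (2 + l.sum - L)))

theorem sort_cons' (a : ℕ) (m : Multiset ℕ) :
    (a ::ₘ m).sort (· ≤ ·) = (m.sort (· ≤ ·)).orderedInsert (· ≤ ·) a := by
  have hp : List.Perm ((a ::ₘ m).sort (· ≤ ·)) ((m.sort (· ≤ ·)).orderedInsert (· ≤ ·) a) := by
    rw [← Multiset.coe_eq_coe, Multiset.sort_eq]
    have h1 : ((m.sort (· ≤ ·)).orderedInsert (· ≤ ·) a : Multiset ℕ) =
        (a :: m.sort (· ≤ ·) : List ℕ) := by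
      rw [Multiset.coe_eq_coe]
      exact List.perm_orderedInsert _ _ _
    rw [h1, ← Multiset.cons_coe, Multiset.sort_eq]
  refine hp.eq_of_pairwise' (Multiset.pairwise_sort _ _) ?_
  exact (Multiset.pairwise_sort m (· ≤ ·)).orderedInsert _ _

theorem sort_erase' (a : ℕ) (m : Multiset ℕ) :
    (m.sort (· ≤ ·)).erase a = (m.erase a).sort (· ≤ ·) := by
  have hp : List.Perm ((m.sort (· ≤ ·)).erase a) ((m.erase a).sort (· ≤ ·)) := by
    rw [← Multiset.coe_eq_coe, Multiset.sort_eq, ← Multiset.coe_erase, Multiset.sort_eq]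
  exact hp.eq_of_pairwise' ((Multiset.pairwise_sort m (· ≤ ·)).sublist List.erase_sublist)
    (Multiset.pairwise_sort _ _)

theorem sort_diff' (p q : Multiset ℕ) :
    ((p + q).sort (· ≤ ·)).diff (p.sort (· ≤ ·)) = q.sort (· ≤ ·) := by
  have hp : List.Perm (((p + q).sort (· ≤ ·)).diff (p.sort (· ≤ ·))) (q.sort (· ≤ ·)) := by
    rw [← Multiset.coe_eq_coe, Multiset.sort_eq, ← Multiset.coe_sub, Multiset.sort_eq,
      Multiset.sort_eq, add_tsub_cancel_left]
  exact hp.eq_of_pairwise' ((Multiset.pairwise_sort _ (· ≤ ·)).sublist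
    (List.diff_sublist _ _)) (Multiset.pairwise_sort _ _)

theorem split_cut (M : Multiset (ℕ × ℕ))
    (h : card (fz (M.map (fun p => p.1 + p.2))) + 1 =
      card (fz (M.map Prod.fst)) + card (fz (M.map Prod.snd))) :
    ∃ (x y : ℕ) (p q : Multiset ℕ), 1 ≤ x ∧ 1 ≤ y ∧ fz (M.map Prod.fst) = x ::ₘ p ∧
      fz (M.map Prod.snd) = y ::ₘ q ∧ fz (M.map (fun p => p.1 + p.2)) = (x + y) ::ₘ (p + q) := by
  induction M using Multiset.induction with
  | empty => simp [fz] at h
  | cons a M ih =>
    obtain ⟨a, b⟩ := a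
    simp only [Multiset.map_cons, fz_cons] at h ⊢
    by_cases ha : a = 0
    · by_cases hb : b = 0
      · subst ha hb
        simpa using ih (by simpa using h)
      · subst ha
        simp only [zero_add, hb, if_false, if_true, Multiset.card_cons] at h ⊢
        obtain ⟨x, y, p, q, hx, hy, h1, h2, h3⟩ := ih (by omega)
        refine ⟨x, y, p, b ::ₘ q, hx, hy, h1, ?_, ?_⟩
        · rw [h2, Multiset.cons_swap]
        · rw [h3, Multiset.cons_swap, Multiset.add_cons]
    · by_cases hb : b = 0
      · subst hb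
        simp only [add_zero, ha, if_false, if_true, Multiset.card_cons] at h ⊢
        obtain ⟨x, y, p, q, hx, hy, h1, h2, h3⟩ := ih (by omega)
        refine ⟨x, y, a ::ₘ p, q, hx, hy, ?_, h2, ?_⟩
        · rw [h1, Multiset.cons_swap]
        · rw [h3, Multiset.cons_swap, Multiset.cons_add]
      · have hab : a + b ≠ 0 := by omega
        simp only [ha, hb, hab, if_false, Multiset.card_cons] at h ⊢
        have h1 := (split_card M).2 (by omega)
        exact ⟨a, b, _, _, by omega, by omega, rfl, rfl, by rw [h1]⟩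

theorem tr3_of (m m1 : Multiset ℕ) (h : m1 ≤ m) (hc : card m1 = 3)
    (hT : T3 (m1.sort (· ≤ ·)) = true) (A : ℕ) (hA : 1 + m1.sum = A) :
    tr3 (m.sort (· ≤ ·)) A = true := by
  unfold tr3
  refine List.any_eq_true.2 ⟨m1.sort (· ≤ ·), ?_, ?_⟩
  · have := mem_subs _ _ (sublist_of_le m m1 h)
    rwa [sort_length, hc] at this
  · rw [hT, sort_sum, hA]; simp

theorem hh_sound : ∀ (f : ℕ) (m : Multiset ℕ), N 2 m → card m = 5 →
    hh f (m.sort (· ≤ ·)) = true := by
  intro f
  induction f with
  | zero => intro m _ _; rfl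
  | succ f ih =>
    intro m hN hcard
    unfold hh
    rw [List.all_eq_true]
    intro L hL
    rw [List.mem_range, sort_sum] at hL
    simp only [Bool.or_eq_true, decide_eq_true_eq, sort_sum]
    have hred : ∀ A, 1 ≤ A → Bs 2 m A → A ∈ m.sort (· ≤ ·) ∨
        (m.sort (· ≤ ·)).any (fun a => decide (A < a) && hh f (red (m.sort (· ≤ ·)) a A)) = true := by
      rintro A hA ⟨a, ha, h | h⟩
      · left
        rw [← h.1]
        exact (mem_sort' m a).2 ha
      · right
        refine List.any_eq_true.2 ⟨a, (mem_sort' m a).2 ha, ?_⟩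
        rw [Bool.and_eq_true, decide_eq_true_eq, ← sort_red]
        refine ⟨h.1, ih _ h.2 ?_⟩
        rw [Multiset.card_cons, Multiset.card_erase_of_mem ha, hcard]
        rfl
    by_cases h0 : L = 0
    · simp [h0]
    rcases N_cases 2 m hN L (by omega) hL with h | h | ⟨s1, s2, M, h1, h2, hs, hM, hN1, hN2, hsum1, hsum2⟩
    · rcases hred L (by omega) h with h | h
      · tauto
      · tauto
    · rcases hred _ (by omega) h with h | h
      · tauto
      · tauto
    · obtain rfl : s1 = 1 := by omega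
      obtain rfl : s2 = 1 := by omega
      have hc1 := N1_card _ _ rfl hN1
      have hc2 := N1_card _ _ rfl hN2
      obtain ⟨hle, heq⟩ := split_card M
      rw [hM] at hle heq
      rcases (show card (fz (M.map Prod.fst)) + card (fz (M.map Prod.snd)) = 5 ∨
        card (fz (M.map Prod.fst)) + card (fz (M.map Prod.snd)) = 6 by omega) with h5 | h6
      · have hm := heq (by omega)
        rcases (show card (fz (M.map Prod.fst)) = 3 ∨ card (fz (M.map Prod.snd)) = 3 by omega)
          with h3 | h3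
        · have := tr3_of m _ (by rw [hm]; exact Multiset.le_add_right _ _) h3
            (N1_T3 _ _ rfl hN1 h3) L hsum1
          tauto
        · have := tr3_of m _ (by rw [hm]; exact Multiset.le_add_left _ _) h3
            (N1_T3 _ _ rfl hN2 h3) _ hsum2
          tauto
      · have hcut := split_cut M (by rw [hM]; omega)
        rw [hM] at hcut
        obtain ⟨x, y, p, q, hx, hy, e1, e2, e3⟩ := hcut
        have hT1 := N1_T3 _ _ rfl hN1 (by omega)
        have hT2 := N1_T3 _ _ rfl hN2 (by omega)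
        have hcp : card p = 2 := by
          have : card (fz (M.map Prod.fst)) = 3 := by omega
          rw [e1, Multiset.card_cons] at this
          omega
        rw [e1, sort_cons'] at hT1
        rw [e2, sort_cons'] at hT2
        rw [e1, Multiset.sum_cons] at hsum1
        have hc : cutb (m.sort (· ≤ ·)) L = true := by
          unfold cutb
          refine List.any_eq_true.2 ⟨x + y, (mem_sort' m _).2 (by rw [e3]; simp), ?_⟩
          refine List.any_eq_true.2 ⟨p.sort (· ≤ ·), ?_, ?_⟩
          · rw [sort_erase', e3, Multiset.erase_cons_head]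
            have := mem_subs _ _ (sublist_of_le (p + q) p (Multiset.le_add_right _ _))
            rwa [sort_length, hcp] at this
          · rw [sort_erase', e3, Multiset.erase_cons_head, sort_diff', sort_sum]
            simp only [Bool.and_eq_true, decide_eq_true_eq]
            rw [show L - 1 - p.sum = x by omega, show x + y - x = y by omega]
            exact ⟨⟨⟨by omega, by omega⟩, hT1⟩, hT2⟩
        tauto

/-- the two lists -/
def G3 : List (List ℕ) := [[1, 1, 1, 2, 2, 3, 4, 6], [1, 1, 1, 2, 3, 4, 6, 8]]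

/-- an admissible triple of order `A` with admissible complement -/
def pairb (l : List ℕ) (A : ℕ) : Bool :=
  (subs 3 l).any fun t => T3 t && decide (1 + t.sum = A) && hh 3 (l.diff t)

/-- no part of order `L` -/
def bad (l : List ℕ) (L : ℕ) : Bool :=
  decide (1 ≤ L) && decide (L < 3 + l.sum) && !baseb (fun t => decide (t ∈ G3)) l L &&
    !baseb (fun t => decide (t ∈ G3)) l (3 + l.sum - L) && !pairb l L && !pairb l (3 + l.sum - L)

/-- orders which are not realised -/
def wits : List (List ℕ × ℕ) := [([1, 1, 1, 1, 2, 3, 4, 6], 10),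
  ([1, 1, 1, 2, 3, 3, 4, 6], 12),
  ([1, 1, 2, 2, 2, 3, 4, 6], 12),
  ([1, 1, 1, 2, 3, 4, 4, 6], 10),
  ([1, 1, 2, 2, 3, 3, 4, 6], 10),
  ([1, 1, 1, 2, 3, 4, 5, 6], 12),
  ([1, 1, 2, 2, 3, 4, 4, 6], 10),
  ([1, 1, 2, 3, 3, 3, 4, 6], 12),
  ([1, 1, 1, 2, 3, 4, 6, 6], 13),
  ([1, 1, 2, 2, 3, 4, 5, 6], 12),
  ([1, 1, 2, 3, 3, 4, 4, 6], 11),
  ([1, 1, 2, 2, 3, 4, 6, 7], 12),
  ([1, 1, 1, 2, 3, 4, 6, 10], 5),
  ([1, 1, 2, 3, 3, 4, 6, 8], 15),
  ([1, 1, 2, 2, 3, 4, 6, 10], 12),
  ([1, 1, 2, 3, 3, 4, 6, 10], 16),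
  ([1, 1, 2, 2, 3, 4, 6, 12], 9),
  ([1, 1, 2, 3, 4, 5, 6, 10], 14),
  ([1, 1, 1, 2, 3, 4, 6, 16], 15),
  ([1, 1, 2, 2, 3, 4, 6, 16], 14),
  ([1, 1, 1, 2, 3, 4, 6, 20], 14),
  ([1, 1, 2, 3, 3, 4, 6, 18], 14)]

theorem wits_ok : F3.all (fun l => decide (l ∈ G3) || wits.any (fun w => decide (w.1 = l) &&
    bad l w.2)) = true := by decide +kernel

theorem N3_mem2 : ∀ (n : ℕ) (m : Multiset ℕ), m.sum = n → N 3 m → card m = 8 →
    m.sort (· ≤ ·) ∈ G3 := by
  intro n
  induction n using Nat.strong_induction_on with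
  | _ n ih =>
    intro m hn hN hcard
    by_contra hcon
    have hF := N3_mem n m hn hN hcard
    have h1 := (List.all_eq_true.1 wits_ok) _ hF
    simp only [Bool.or_eq_true, decide_eq_true_eq, hcon, false_or, List.any_eq_true,
      Bool.and_eq_true] at h1
    obtain ⟨w, _, hw, hbad⟩ := h1
    unfold bad at hbad
    simp only [Bool.and_eq_true, decide_eq_true_eq, Bool.not_eq_true', sort_sum] at hbad
    obtain ⟨⟨⟨⟨⟨hL1, hL2⟩, hb1⟩, hb2⟩, hp1⟩, hp2⟩ := hbad
    generalize w.2 = L at hL1 hL2 hb1 hb2 hp1 hp2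
    have hB : ∀ A, 1 ≤ A → Bs 3 m A →
        baseb (fun t => decide (t ∈ G3)) (m.sort (· ≤ ·)) A = true := by
      intro A hA h
      have := baseb_of_Bs ⟨3, 8, T3, T3, fun t => decide (t ∈ G3)⟩ m hcard
        (fun m' hm' hc' hN' => by
          have := ih _ (by omega) m' rfl hN' hc'
          simpa using this) A hA h
      exact this
    have hpair : ∀ (m1 m2 : Multiset ℕ) (A : ℕ), m = m1 + m2 → card m1 = 3 → card m2 = 5 →
        N 1 m1 → N 2 m2 → 1 + m1.sum = A → pairb (m.sort (· ≤ ·)) A = true := by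
      intro m1 m2 A hm hc1 hc2 hN1 hN2 hA
      unfold pairb
      refine List.any_eq_true.2 ⟨m1.sort (· ≤ ·), ?_, ?_⟩
      · have := mem_subs _ _ (sublist_of_le m m1 (by rw [hm]; exact Multiset.le_add_right _ _))
        rwa [sort_length, hc1] at this
      · rw [hm, sort_diff', sort_sum]
        simp only [Bool.and_eq_true, decide_eq_true_eq]
        exact ⟨⟨N1_T3 _ _ rfl hN1 hc1, hA⟩, hh_sound 3 _ hN2 hc2⟩
    rcases N_cases 3 m hN L hL1 hL2 with h | h | ⟨s1, s2, M, h1, h2, hs, hM, hN1, hN2, hsum1, hsum2⟩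
    · rw [hB L hL1 h] at hb1
      exact Bool.noConfusion hb1
    · rw [hB _ (by omega) h] at hb2
      exact Bool.noConfusion hb2
    · obtain ⟨hle, heq⟩ := split_card M
      rw [hM] at hle heq
      rcases (show (s1 = 1 ∧ s2 = 2) ∨ (s1 = 2 ∧ s2 = 1) by omega) with ⟨rfl, rfl⟩ | ⟨rfl, rfl⟩
      · have hc1 := N1_card _ _ rfl hN1
        have hc2 := N2_card _ _ rfl hN2
        rw [hpair _ _ L (heq (by omega)) (by omega) (by omega) hN1 hN2 hsum1] at hp1
        exact Bool.noConfusion hp1
      · have hc1 := N2_card _ _ rfl hN1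
        have hc2 := N1_card _ _ rfl hN2
        rw [hpair _ _ _ ((heq (by omega)).trans (add_comm _ _)) (by omega) (by omega) hN2 hN1
          hsum2] at hp2
        exact Bool.noConfusion hp2

/-- a recursively partitionable `K_3 (b)` with eight cliques has `b` in the list `G3` -/
theorem mem_G3 (b : Fin 8 → ℕ) (hpos : ∀ i, 1 ≤ b i) (hmono : Monotone b)
    (h : RP _ (semistar 3 b)) : List.ofFn b ∈ G3 := by
  rw [semistar_iff] at h
  have hmap : (Finset.univ : Finset (Fin 8)).val.map b = ((List.ofFn b : List ℕ) : Multiset ℕ) := by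
    rw [Fin.univ_val_map]
  have hfz : fz ((Finset.univ : Finset (Fin 8)).val.map b) = ((List.ofFn b : List ℕ) : Multiset ℕ) := by
    rw [← hmap]
    unfold fz
    rw [Multiset.filter_eq_self]
    intro x hx
    obtain ⟨i, _, rfl⟩ := Multiset.mem_map.1 hx
    have := hpos i
    omega
  have h1 := N3_mem2 _ ((List.ofFn b : List ℕ) : Multiset ℕ) rfl ⟨b, h, hfz⟩ (by simp)
  have h2 : ((List.ofFn b : List ℕ) : Multiset ℕ).sort (· ≤ ·) = List.ofFn b := by
    have hp : List.Perm (((List.ofFn b : List ℕ) : Multiset ℕ).sort (· ≤ ·)) (List.ofFn b) := by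
      rw [← Multiset.coe_eq_coe, Multiset.sort_eq]
    exact hp.eq_of_pairwise' (Multiset.pairwise_sort _ _) hmono.sortedLE_ofFn.pairwise
  rwa [h2] at h1

end Pool.Agent.KS6_81.RPS
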